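import Pool.Agent.Helper84.WC.Bridge

/-!
# MP_d7e228_al: a spectral gap action whose warped cone has a Roe algebra with trivial K-theory

The coarse assembly map of the warped cone takes values in `K_*(C*(O))`, so it is surjective
when these groups vanish.
-/

open MeasureTheory
open Pool.Agent.Helper84.WC

namespace Pool.Agent.Results.MP_d7e228_al.CoarseAssembly

theorem result :
    ∃ (G : Type) (_ : Group G) (S : Finset G) (M : Type) (_ : MetricSpace M)
      (_ : CompactSpace M) (_ : MeasurableSpace M) (_ : BorelSpace M) (_ : MulAction G M)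
      (m : Measure M),
      -- the hypotheses of the question; moreover `m` has full support
      GapAction G S M m ∧
      (∀ U : Set M, IsOpen U → U.Nonempty → 0 < m U) ∧
      (∀ x y : M, dist x y ≤ 2) ∧
      -- for every metric `ρ` on the cone that is bi-Lipschitz equivalent to `coneDist`
      ∀ ρ : Cone M → Cone M → ℝ, IsConeMetric ρ →
        -- the warped metric is a metric and satisfies the defining conditions
        IsWarp ρ (S : Set G) (warpMetric ρ (S : Set G)) ∧
        (∀ p q : Cone M, warpMetric ρ (S : Set G) p q = 0 → p = q) ∧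
        -- the Roe algebra is the closure of the set of locally compact operators of finite
        -- propagation
        RoeIsClosure ρ (S : Set G) m ∧
        -- its K-theory vanishes
        Subsingleton (CK0 (WarpedRoe ρ (S : Set G) m)) ∧
        Subsingleton (CK1 (WarpedRoe ρ (S : Set G) m)) ∧
        -- so every homomorphism into it is surjective
        AllSurj (CK0 (WarpedRoe ρ (S : Set G) m)) ∧
        AllSurj (CK1 (WarpedRoe ρ (S : Set G) m)) := by
  have hex := exists_example
  obtain ⟨M, i1, i2, i3, i4, i5, m, σ, hgap, hpos, hdiam, hσ⟩ := hex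
  have hp : IsProbabilityMeasure m := ⟨hgap.prob⟩
  refine ⟨FreeGroup (Fin 2), inferInstance, gens, M, i1, i2, i3, i4, i5, m, hgap,
    fun U hU hne => hU.measure_pos m hne, hdiam, fun ρ hρ => ?_⟩
  obtain ⟨L, hL, h0, h⟩ := hρ.exists_one
  have hK := K_warped_public hρ (gens : Set (FreeGroup (Fin 2))) m hσ
  have s0 := hK.1
  have s1 := hK.2
  refine ⟨warpMetric_isWarp h0, fun p q hpq => ?_, roeIsClosure hρ _ m, s0, s1,
    fun D _ μ y => ⟨0, Subsingleton.elim _ _⟩, fun D _ μ y => ⟨0, Subsingleton.elim _ _⟩⟩
  have h1 := warpDist_le_warpMetric (S := (gens : Set (FreeGroup (Fin 2)))) hL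
    (fun p q => (h p q).2) p q
  rw [hpq, mul_zero] at h1
  exact eq_of_warpDist_eq_zero hdiam _ p q (le_antisymm h1 (warpDist_nonneg _ p q))

end Pool.Agent.Results.MP_d7e228_al.CoarseAssembly
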